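import Pool.Agent.LE.StmtsQE

/-!
# LQD, row GAP: the gap of the ladder kernel for small momenta
-/

set_option autoImplicit false
set_option linter.unusedSectionVars false

open MeasureTheory ProbabilityTheory

open scoped ENNReal BigOperators NNReal Matrix

noncomputable section

namespace Pool.Agent.LE.QD.H51

open Pool.Agent.Anderson hiding box mem_box card_box
open Pool.Agent.Loc Pool.Agent.Mob Pool.Agent.Helper54.Bal
  Pool.Agent.Helper96.EXP Pool.Agent.BED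
open Pool.Agent.LE.MN Pool.Agent.LE.CL Pool.Agent.LE.IR

variable {d M : ℕ} [NeZero M]

/-! ### The characters of the cyclic group -/

theorem chi_norm (a : ZMod M) : ‖(ZMod.stdAddChar a : ℂ)‖ = 1 := by
  rw [ZMod.stdAddChar_apply]
  exact Circle.norm_coe _

theorem chi_neg (a : ZMod M) :
    (ZMod.stdAddChar (-a) : ℂ) = (starRingEnd ℂ) (ZMod.stdAddChar a : ℂ) := by
  have h1 : (ZMod.stdAddChar (-a) : ℂ) * ZMod.stdAddChar a = 1 := by
    rw [← AddChar.map_add_eq_mul, neg_add_cancel, AddChar.map_zero_eq_one]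
  have h2 : (starRingEnd ℂ) (ZMod.stdAddChar a : ℂ) * ZMod.stdAddChar a = 1 := by
    rw [mul_comm, Complex.mul_conj, Complex.normSq_eq_norm_sq, chi_norm]
    norm_num
  have h3 : (ZMod.stdAddChar a : ℂ) ≠ 0 := by
    intro h
    rw [h, mul_zero] at h1
    exact zero_ne_one h1
  exact mul_right_cancel₀ h3 (h1.trans h2.symm)

theorem chi_re (n : ℤ) : (ZMod.stdAddChar ((n : ℤ) : ZMod M) : ℂ).re =
    Real.cos (2 * Real.pi * (n : ℝ) / M) := by
  rw [ZMod.stdAddChar_coe]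
  have h1 : (2 * (Real.pi : ℂ) * Complex.I * (n : ℂ) / (M : ℂ)) =
      ((2 * Real.pi * (n : ℝ) / M : ℝ) : ℂ) * Complex.I := by
    push_cast
    ring
  rw [h1, Complex.exp_ofReal_mul_I_re]

theorem chi_re_sq (a : ZMod M) :
    (ZMod.stdAddChar (2 * a) : ℂ).re = 2 * (ZMod.stdAddChar a : ℂ).re ^ 2 - 1 := by
  have h1 : (ZMod.stdAddChar (2 * a) : ℂ) = ZMod.stdAddChar a * ZMod.stdAddChar a := by
    rw [← AddChar.map_add_eq_mul, two_mul]
  have h2 := chi_norm a
  have h3 : (ZMod.stdAddChar a : ℂ).re ^ 2 + (ZMod.stdAddChar a : ℂ).im ^ 2 = 1 := by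
    have h4 : Complex.normSq (ZMod.stdAddChar a : ℂ) = 1 := by
      rw [Complex.normSq_eq_norm_sq, h2]
      norm_num
    rw [Complex.normSq_apply] at h4
    nlinarith
  rw [h1, Complex.mul_re]
  nlinarith

theorem chi_gap (a : ZMod M) : (1 - (ZMod.stdAddChar (2 * a) : ℂ).re) / 4 ≤
    1 - |(ZMod.stdAddChar a : ℂ).re| := by
  rw [chi_re_sq]
  have h1 : |(ZMod.stdAddChar a : ℂ).re| ≤ 1 := by
    rw [← chi_norm a]
    exact Complex.abs_re_le_norm _
  have h2 := sq_abs (ZMod.stdAddChar a : ℂ).re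
  have h3 := abs_nonneg (ZMod.stdAddChar a : ℂ).re
  nlinarith

/-! ### Symmetries -/

theorem es_eq (p : Tor d M) : es p = ∑ j, 2 * (ZMod.stdAddChar (p j) : ℂ).re := by
  unfold es ds
  have h1 : ∀ j, Real.cos (2 * Real.pi * ((p j).valMinAbs : ℝ) / M) =
      (ZMod.stdAddChar (p j) : ℂ).re := by
    intro j
    rw [← chi_re, ZMod.coe_valMinAbs]
  simp only [h1]
  have h2 : (2 * d : ℝ) = ∑ _j : Fin d, (2 : ℝ) := by
    rw [Finset.sum_const, Finset.card_univ, Fintype.card_fin, nsmul_eq_mul]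
    ring
  rw [h2, ← Finset.sum_sub_distrib]
  refine Finset.sum_congr rfl fun j _ => ?_
  ring

theorem es_neg (p : Tor d M) : es (-p) = es p := by
  rw [es_eq, es_eq]
  refine Finset.sum_congr rfl fun j _ => ?_
  rw [Pi.neg_apply, chi_neg, Complex.conj_re]

/-- the reflection of the coordinate `i` -/
def fl (i : Fin d) : Tor d M ≃ Tor d M where
  toFun p := Function.update p i (-p i)
  invFun p := Function.update p i (-p i)
  left_inv p := by
    simp
  right_inv p := by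
    simp

theorem fl_same (i : Fin d) (p : Tor d M) : fl i p i = -p i := by
  show Function.update p i (-p i) i = -p i
  rw [Function.update_self]

theorem fl_ne {i j : Fin d} (h : j ≠ i) (p : Tor d M) : fl i p j = p j := by
  show Function.update p i (-p i) j = p j
  rw [Function.update_of_ne h]

theorem es_fl (i : Fin d) (p : Tor d M) : es (fl i p) = es p := by
  rw [es_eq, es_eq]
  refine Finset.sum_congr rfl fun j _ => ?_
  by_cases h : j = i
  · subst h
    rw [fl_same, chi_neg, Complex.conj_re]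
  · rw [fl_ne h]

theorem ec_fl (i : Fin d) (p x : Tor d M) : ec (fl i p) (fl i x) = ec p x := by
  unfold ec
  refine Finset.prod_congr rfl fun j _ => ?_
  by_cases h : j = i
  · subst h
    rw [fl_same, fl_same, neg_mul_neg]
  · rw [fl_ne h, fl_ne h]

theorem fl_neg (i : Fin d) (x : Tor d M) : fl i (-x) = -fl i x := by
  funext j
  by_cases h : j = i
  · subst h
    rw [fl_same, Pi.neg_apply, Pi.neg_apply, fl_same]
  · rw [fl_ne h, Pi.neg_apply, Pi.neg_apply, fl_ne h]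

/-- the free resolvent at the origin -/
def g0 (ζ : ℂ) (x : Tor d M) : ℂ := rs (0 : Tor d M → ℝ) ζ 0 x

theorem g0_eq (ral : RalStmt) {ζ : ℂ} (hζ : 0 < ζ.im) (x : Tor d M) :
    g0 ζ x = (∑ p, ec p (-x) / ((es p : ℂ) - ζ)) / (M : ℂ) ^ d := by
  obtain ⟨-, -, -, -, -, -, -, -, -, -, h, -⟩ := ral d M 0 ζ hζ
  unfold g0
  rw [h, zero_sub]

theorem g0_fl (ral : RalStmt) {ζ : ℂ} (hζ : 0 < ζ.im) (i : Fin d) (x : Tor d M) :
    g0 ζ (fl i x) = g0 ζ x := by
  rw [g0_eq ral hζ, g0_eq ral hζ, ← Equiv.sum_comp (fl i)]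
  congr 1
  refine Finset.sum_congr rfl fun p _ => ?_
  rw [es_fl, ← fl_neg, ec_fl]

theorem kk_eq (ζ : ℂ) (x : Tor d M) : kk ζ x = ‖g0 ζ x‖ ^ 2 := rfl

/-! ### The reflection argument -/

theorem refl_bound (ral : RalStmt) {ζ : ℂ} (hζ : 0 < ζ.im) (q : Tor d M) (i : Fin d) :
    |∑ x, kk ζ x * (ec q x).re| ≤ ∑ x, kk ζ x * |(ZMod.stdAddChar (q i * x i) : ℂ).re| := by
  obtain ⟨P, hP⟩ : ∃ P : Tor d M → ℂ, P = fun x =>
    ∏ j ∈ Finset.univ.erase i, (ZMod.stdAddChar (q j * x j) : ℂ) := ⟨_, rfl⟩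
  have h1 : ∀ x, ec q x = ZMod.stdAddChar (q i * x i) * P x := by
    intro x
    rw [hP]
    unfold ec
    rw [← Finset.mul_prod_erase Finset.univ _ (Finset.mem_univ i)]
  have h2 : ∀ x, P (fl i x) = P x := by
    intro x
    rw [hP]
    refine Finset.prod_congr rfl fun j hj => ?_
    rw [fl_ne (Finset.ne_of_mem_erase hj)]
  have h3 : ∀ x, ‖P x‖ = 1 := by
    intro x
    rw [hP]
    simp only [norm_prod]
    exact Finset.prod_eq_one fun j _ => chi_norm _
  have h4 : ∀ x : Tor d M, kk ζ (fl i x) = kk ζ x := by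
    intro x
    rw [kk_eq, kk_eq, g0_fl ral hζ]
  have h5 : ∑ x, (kk ζ x : ℂ) * ec q x =
      ∑ x, (kk ζ x : ℂ) * (P x * ((ZMod.stdAddChar (q i * x i) : ℂ).re : ℂ)) := by
    have h6 : ∑ x, (kk ζ x : ℂ) * ec q x = ∑ x, (kk ζ (fl i x) : ℂ) * ec q (fl i x) :=
      (Equiv.sum_comp (fl i) fun x => (kk ζ x : ℂ) * ec q x).symm
    have h7 : (2 : ℂ) * ∑ x, (kk ζ x : ℂ) * ec q x = 2 *
        ∑ x, (kk ζ x : ℂ) * (P x * ((ZMod.stdAddChar (q i * x i) : ℂ).re : ℂ)) := by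
      rw [two_mul]
      nth_rw 2 [h6]
      rw [← Finset.sum_add_distrib, Finset.mul_sum]
      refine Finset.sum_congr rfl fun x _ => ?_
      rw [h4, h1, h1, h2, fl_same, mul_neg, chi_neg]
      have h8 := Complex.add_conj (ZMod.stdAddChar (q i * x i) : ℂ)
      push_cast at h8
      linear_combination (kk ζ x : ℂ) * P x * h8
    exact mul_left_cancel₀ two_ne_zero h7
  have h9 : ∑ x, kk ζ x * (ec q x).re = (∑ x, (kk ζ x : ℂ) * ec q x).re := by
    rw [Complex.re_sum]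
    refine Finset.sum_congr rfl fun x _ => ?_
    rw [Complex.re_ofReal_mul]
  rw [h9]
  refine (Complex.abs_re_le_norm _).trans ?_
  rw [h5]
  refine (norm_sum_le _ _).trans (Finset.sum_le_sum fun x _ => ?_)
  rw [norm_mul, norm_mul, h3, one_mul, Complex.norm_real, Complex.norm_real,
    Real.norm_of_nonneg (by rw [kk_eq]; positivity), Real.norm_eq_abs]

/-! ### Parseval -/

theorem ft_g0 (ral : RalStmt) (ftb : FtbStmt) {ζ : ℂ} (hζ : 0 < ζ.im) (p : Tor d M) :
    ft (g0 ζ) p = 1 / ((es p : ℂ) - ζ) := by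
  obtain ⟨-, -, -, f4, -, -, f7, f8, -⟩ := ftb d M
  obtain ⟨f, hf⟩ := f8 fun p => 1 / ((es p : ℂ) - ζ)
  have h1 : g0 ζ = f := by
    funext x
    rw [g0_eq ral hζ, f7 f x, ← Equiv.sum_comp (Equiv.neg (Tor d M))]
    congr 1
    refine Finset.sum_congr rfl fun p _ => ?_
    rw [hf, Equiv.neg_apply, es_neg, (f4 p (-x)).1, (f4 p x).2, Complex.conj_conj]
    ring
  rw [h1, hf]

theorem parseval (ral : RalStmt) (ftb : FtbStmt) {ζ : ℂ} (hζ : 0 < ζ.im) (r : Tor d M) :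
    ∑ x, kk ζ x * (2 * (1 - (ec r x).re)) =
      pm fun p => ‖1 / ((es p : ℂ) - ζ) - 1 / ((es (p - r) : ℂ) - ζ)‖ ^ 2 := by
  obtain ⟨f1, -, f3, f4, -, f6, -⟩ := ftb d M
  have h1 := f6 fun x => g0 ζ x * (1 - ec r x)
  have h2 : ∀ p, ft (fun x => g0 ζ x * (1 - ec r x)) p =
      1 / ((es p : ℂ) - ζ) - 1 / ((es (p - r) : ℂ) - ζ) := by
    intro p
    rw [← ft_g0 ral ftb hζ, ← ft_g0 ral ftb hζ]
    unfold ft
    rw [← Finset.sum_sub_distrib]
    refine Finset.sum_congr rfl fun y _ => ?_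
    have h3 : (starRingEnd ℂ) (ec (p - r) y) = (starRingEnd ℂ) (ec p y) * ec r y := by
      rw [sub_eq_add_neg, f3, map_mul, (f4 r y).1, Complex.conj_conj]
    rw [h3]
    ring
  simp only [h2] at h1
  rw [← h1]
  refine Finset.sum_congr rfl fun x _ => ?_
  rw [norm_mul, mul_pow, kk_eq]
  congr 1
  have h4 : Complex.normSq (ec r x) = 1 := by
    rw [Complex.normSq_eq_norm_sq, f1]
    norm_num
  rw [Complex.normSq_apply] at h4
  rw [← Complex.normSq_eq_norm_sq, Complex.normSq_apply]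
  simp only [Complex.sub_re, Complex.sub_im, Complex.one_re, Complex.one_im]
  nlinarith

/-! ### The lower bound -/

theorem es_diff (p : Tor d M) (i : Fin d) (b : ZMod M) :
    es p - es (p - Pi.single i b) = 2 * (ZMod.stdAddChar (p i) : ℂ).re -
      2 * (ZMod.stdAddChar (p i - b) : ℂ).re := by
  rw [es_eq, es_eq, ← Finset.sum_sub_distrib, Finset.sum_eq_single i]
  · rw [Pi.sub_apply, Pi.single_eq_same]
  · intro j _ hj
    rw [Pi.sub_apply, Pi.single_eq_of_ne hj, sub_zero, sub_self]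
  · intro h
    exact absurd (Finset.mem_univ _) h

theorem es_diff' (p q : Tor d M) (i : Fin d) :
    es p - es (p - Pi.single i (2 * q i)) =
      -(4 * Real.sin (2 * Real.pi * ((q i).valMinAbs : ℝ) / M) *
        Real.sin (2 * Real.pi * ((p i).valMinAbs : ℝ) / M -
          2 * Real.pi * ((q i).valMinAbs : ℝ) / M)) := by
  rw [es_diff]
  have h1 : (ZMod.stdAddChar (p i) : ℂ).re =
      Real.cos (2 * Real.pi * ((p i).valMinAbs : ℝ) / M) := by
    rw [← chi_re, ZMod.coe_valMinAbs]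
  have h2 : (ZMod.stdAddChar (p i - 2 * q i) : ℂ).re =
      Real.cos (2 * Real.pi * (((p i).valMinAbs - 2 * (q i).valMinAbs : ℤ) : ℝ) / M) := by
    rw [← chi_re]
    congr 2
    push_cast
    rfl
  rw [h1, h2, ← mul_sub, Real.cos_sub_cos]
  have e1 : (2 * Real.pi * ((p i).valMinAbs : ℝ) / M +
      2 * Real.pi * (((p i).valMinAbs - 2 * (q i).valMinAbs : ℤ) : ℝ) / M) / 2 =
      2 * Real.pi * ((p i).valMinAbs : ℝ) / M - 2 * Real.pi * ((q i).valMinAbs : ℝ) / M := by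
    push_cast
    ring
  have e2 : (2 * Real.pi * ((p i).valMinAbs : ℝ) / M -
      2 * Real.pi * (((p i).valMinAbs - 2 * (q i).valMinAbs : ℤ) : ℝ) / M) / 2 =
      2 * Real.pi * ((q i).valMinAbs : ℝ) / M := by
    push_cast
    ring
  rw [e1, e2]
  ring

theorem inv_diff {ζ : ℂ} {u v w : ℝ} (hw : 0 < w) (hζ : ζ.im = w) (h1 : |u - ζ.re| ≤ w)
    (h2 : |u - v| ≤ w) : (u - v) ^ 2 / (10 * w ^ 4) ≤ ‖1 / ((u : ℂ) - ζ) - 1 / ((v : ℂ) - ζ)‖ ^ 2 := by
  have n1 : Complex.normSq ((u : ℂ) - ζ) = (u - ζ.re) ^ 2 + w ^ 2 := by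
    rw [Complex.normSq_apply]
    simp only [Complex.sub_re, Complex.sub_im, Complex.ofReal_re, Complex.ofReal_im, hζ]
    ring
  have n2 : Complex.normSq ((v : ℂ) - ζ) = (v - ζ.re) ^ 2 + w ^ 2 := by
    rw [Complex.normSq_apply]
    simp only [Complex.sub_re, Complex.sub_im, Complex.ofReal_re, Complex.ofReal_im, hζ]
    ring
  have p1 : 0 < Complex.normSq ((u : ℂ) - ζ) := by rw [n1]; positivity
  have p2 : 0 < Complex.normSq ((v : ℂ) - ζ) := by rw [n2]; positivity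
  have u0 : (u : ℂ) - ζ ≠ 0 := Complex.normSq_pos.1 p1
  have v0 : (v : ℂ) - ζ ≠ 0 := Complex.normSq_pos.1 p2
  have e1 : 1 / ((u : ℂ) - ζ) - 1 / ((v : ℂ) - ζ) = ((v - u : ℝ) : ℂ) / (((u : ℂ) - ζ) * ((v : ℂ) - ζ)) := by
    field_simp
    push_cast
    ring
  have e2 : ‖1 / ((u : ℂ) - ζ) - 1 / ((v : ℂ) - ζ)‖ ^ 2 =
      (u - v) ^ 2 / (Complex.normSq ((u : ℂ) - ζ) * Complex.normSq ((v : ℂ) - ζ)) := by
    rw [← Complex.normSq_eq_norm_sq, e1, Complex.normSq_div, Complex.normSq_mul,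
      Complex.normSq_ofReal]
    congr 1
    ring
  rw [e2]
  have b1 : Complex.normSq ((u : ℂ) - ζ) ≤ 2 * w ^ 2 := by
    rw [n1]
    have := sq_le_sq' (abs_le.1 h1).1 (abs_le.1 h1).2
    linarith
  have b2 : Complex.normSq ((v : ℂ) - ζ) ≤ 5 * w ^ 2 := by
    rw [n2]
    have h3 : |v - ζ.re| ≤ 2 * w := by
      rw [abs_le] at h1 h2 ⊢
      constructor <;> linarith [h1.1, h1.2, h2.1, h2.2]
    have := sq_le_sq' (abs_le.1 h3).1 (abs_le.1 h3).2
    nlinarith
  apply div_le_div_of_nonneg_left (sq_nonneg _) (mul_pos p1 p2)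
  calc _ ≤ (2 * w ^ 2) * (5 * w ^ 2) := mul_le_mul b1 b2 p2.le (by positivity)
    _ = 10 * w ^ 4 := by ring

theorem sin_sq_ge {a : ℝ} (h : |a| ≤ 1) : a ^ 2 / 4 ≤ Real.sin a ^ 2 := by
  have hpi := Real.pi_pos
  have hpi3 := Real.pi_gt_three
  have hpi4 := Real.pi_le_four
  have h1 : 2 / Real.pi * |a| ≤ Real.sin |a| := Real.mul_le_sin (abs_nonneg a) (by linarith)
  have h2 : 1 / 2 * |a| ≤ Real.sin |a| := by
    refine le_trans (mul_le_mul_of_nonneg_right ?_ (abs_nonneg a)) h1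
    rw [div_le_div_iff₀ (by norm_num) hpi]
    linarith
  have h3 : Real.sin |a| ^ 2 = Real.sin a ^ 2 := by
    rcases abs_choice a with h | h
    · rw [h]
    · rw [h, Real.sin_neg, neg_sq]
  rw [← h3]
  have h4 : (1 / 2 * |a|) ^ 2 ≤ Real.sin |a| ^ 2 := pow_le_pow_left₀ (by positivity) h2 2
  rw [mul_pow, sq_abs] at h4
  linarith

/-- row GAP -/
theorem gap (ral : RalStmt) (dsu : DsuStmt) (dsl : DslStmt) (ftb : FtbStmt) : GapStmt := by
  intro d δ hd hδ
  obtain ⟨C₁, hC₁, hdsu⟩ := dsu d hd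
  obtain ⟨c₁, C₂, hc₁, hc₁', hC₂, hdsl⟩ := dsl d δ hd hδ
  have hd0 : (0 : ℝ) < d := by exact_mod_cast (by omega : 0 < d)
  have hpi := Real.pi_pos
  obtain ⟨c, hc⟩ : ∃ c : ℝ, c = min (1 / 4) (min c₁ (c₁ / (20 * C₁ * d))) := ⟨_, rfl⟩
  have hc0 : 0 < c := by
    rw [hc]
    exact lt_min (by norm_num) (lt_min hc₁ (by positivity))
  have hc2 : c ≤ 1 / 4 := hc ▸ min_le_left _ _
  have hc3 : c ≤ c₁ := hc ▸ (min_le_right _ _).trans (min_le_left _ _)
  have hc4 : c ≤ c₁ / (20 * C₁ * d) := hc ▸ (min_le_right _ _).trans (min_le_right _ _)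
  refine ⟨c, max C₁ C₂, hc0, by linarith, hC₁.trans (le_max_left _ _), ?_⟩
  intro M hM ζ hre him hle hMw q hq
  obtain ⟨w, hw⟩ : ∃ w, w = ζ.im := ⟨_, rfl⟩
  rw [← hw] at him hle hMw hq ⊢
  have hζ : 0 < ζ.im := hw ▸ him
  have hM0 : (0 : ℝ) < M := by exact_mod_cast Nat.pos_of_ne_zero (NeZero.ne M)
  have hM1 : C₁ / w ≤ M := by
    refine le_trans ?_ hMw
    gcongr
    exact le_max_left _ _
  have hM2 : C₂ / w ≤ M := by
    refine le_trans ?_ hMw
    gcongr
    exact le_max_right _ _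
  have hw1 : w ≤ 1 := by linarith
  have hK0 : 0 ≤ ∑ x : Tor d M, kk ζ x := Finset.sum_nonneg fun x _ => by
    rw [kk_eq]
    positivity
  -- the upper bound for the sum of the kernel
  have hK : ∑ x : Tor d M, kk ζ x ≤ C₁ / w := by
    obtain ⟨-, -, -, -, h5, -, -, -, -, -, h11, -⟩ := ral d M 0 ζ hζ
    have h1 : ∑ x : Tor d M, kk ζ x = (rs (0 : Tor d M → ℝ) ζ 0 0).im / ζ.im := h5 0
    rw [h1, ← hw]
    refine div_le_div_of_nonneg_right ?_ him.le
    refine le_trans (le_of_eq ?_) (hdsu M ζ.re w him hw1 hM1).1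
    rw [h11]
    unfold pm
    have e1 : ((M : ℂ) ^ d) = (((M : ℝ) ^ d : ℝ) : ℂ) := by push_cast; rfl
    rw [e1, Complex.div_ofReal_im, Complex.im_sum]
    congr 1
    refine Finset.sum_congr rfl fun p _ => ?_
    have e2 : ec p (0 - 0 : Tor d M) = 1 := by
      unfold ec
      simp
    rw [e2, one_div, Complex.inv_im, Complex.normSq_apply]
    simp only [Complex.sub_re, Complex.sub_im, Complex.ofReal_re, Complex.ofReal_im, ← hw]
    congr 1
    · ring
    · ring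
  -- one coordinate
  have hone : ∀ i, |∑ x, kk ζ x * (ec q x).re| ≤ (∑ x : Tor d M, kk ζ x) -
      c₁ / (20 * C₁) * ((2 * Real.pi / M) ^ 2 * ((q i).valMinAbs : ℝ) ^ 2 / w ^ 2) *
        ∑ x : Tor d M, kk ζ x := by
    intro i
    obtain ⟨a, ha⟩ : ∃ a : ℝ, a = 2 * Real.pi * ((q i).valMinAbs : ℝ) / M := ⟨_, rfl⟩
    have ha1 : |a| ≤ c * w := by
      rw [ha, abs_div, abs_mul, abs_of_pos (by positivity : 0 < 2 * Real.pi), abs_of_pos hM0,
        div_le_iff₀ hM0]
      exact hq i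
    have ha2 : |a| ≤ 1 := ha1.trans (by nlinarith)
    have h1 := refl_bound ral hζ q i
    have h2 : ∑ x : Tor d M, kk ζ x * (2 * (1 - (ec (Pi.single i (2 * q i)) x).re)) / 8 ≤
        (∑ x : Tor d M, kk ζ x) - ∑ x, kk ζ x * |(ZMod.stdAddChar (q i * x i) : ℂ).re| := by
      rw [← Finset.sum_sub_distrib]
      refine Finset.sum_le_sum fun x _ => ?_
      have e1 : ec (Pi.single i (2 * q i)) x = ZMod.stdAddChar (2 * (q i * x i)) := by
        unfold ec
        rw [Finset.prod_eq_single i]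
        · rw [Pi.single_eq_same, mul_assoc]
        · intro j _ hj
          rw [Pi.single_eq_of_ne hj, zero_mul, AddChar.map_zero_eq_one]
        · intro h
          exact absurd (Finset.mem_univ _) h
      rw [e1]
      have e2 := chi_gap (q i * x i)
      have e3 : 0 ≤ kk ζ x := by
        rw [kk_eq]
        positivity
      nlinarith
    rw [← Finset.sum_div, parseval ral ftb hζ] at h2
    have h3 : 16 * Real.sin a ^ 2 / (10 * w ^ 4) * (c₁ * w) ≤ pm fun p : Tor d M =>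
        ‖1 / ((es p : ℂ) - ζ) - 1 / ((es (p - Pi.single i (2 * q i)) : ℂ) - ζ)‖ ^ 2 := by
      have h4 := hdsl M ζ.re w a i hre him (hle.trans hc3) hM2
      refine (mul_le_mul_of_nonneg_left h4 (by positivity)).trans ?_
      unfold pm
      rw [mul_div_assoc', Finset.mul_sum]
      refine div_le_div_of_nonneg_right (Finset.sum_le_sum fun p _ => ?_) (by positivity)
      split_ifs with h5
      · have h6 := es_diff' p q i
        rw [← ha] at h6
        have h7 : |es p - es (p - Pi.single i (2 * q i))| ≤ w := by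
          rw [h6, abs_neg, abs_mul, abs_mul]
          have s1 : |Real.sin a| ≤ |a| := Real.abs_sin_le_abs
          have s2 : |Real.sin (2 * Real.pi * ((p i).valMinAbs : ℝ) / M - a)| ≤ 1 :=
            Real.abs_sin_le_one _
          have s3 : |(4 : ℝ)| = 4 := by norm_num
          rw [s3]
          calc 4 * |Real.sin a| * |Real.sin (2 * Real.pi * ((p i).valMinAbs : ℝ) / M - a)| ≤
              4 * (c * w) * 1 := by
                refine mul_le_mul (mul_le_mul_of_nonneg_left (s1.trans ha1) (by norm_num)) s2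
                  (abs_nonneg _) (by positivity)
            _ ≤ w := by nlinarith
        refine le_trans (le_of_eq ?_) (inv_diff him hw.symm h5 h7)
        rw [h6]
        ring
      · rw [mul_zero]
        positivity
    have h4 := sin_sq_ge ha2
    have h5 : c₁ / 20 * (a ^ 2 / w ^ 3) ≤ (∑ x : Tor d M, kk ζ x) -
        ∑ x, kk ζ x * |(ZMod.stdAddChar (q i * x i) : ℂ).re| := by
      refine le_trans ?_ h2
      refine le_trans ?_ (div_le_div_of_nonneg_right h3 (by norm_num))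
      have e1 : c₁ / 20 * (a ^ 2 / w ^ 3) = 16 * (a ^ 2 / 4) / (10 * w ^ 4) * (c₁ * w) / 8 := by
        field_simp
        ring
      rw [e1]
      gcongr
    have h6 : c₁ / (20 * C₁) * ((2 * Real.pi / M) ^ 2 * ((q i).valMinAbs : ℝ) ^ 2 / w ^ 2) *
        ∑ x : Tor d M, kk ζ x ≤ c₁ / 20 * (a ^ 2 / w ^ 3) := by
      have e1 : (2 * Real.pi / M) ^ 2 * ((q i).valMinAbs : ℝ) ^ 2 = a ^ 2 := by
        rw [ha]
        ring
      rw [e1]
      refine (mul_le_mul_of_nonneg_left hK (by positivity)).trans (le_of_eq ?_)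
      field_simp
    linarith
  -- the mean over the coordinates
  obtain ⟨B, hB⟩ : ∃ B, B = |∑ x, kk ζ x * (ec q x).re| := ⟨_, rfl⟩
  obtain ⟨K, hKd⟩ : ∃ K, K = ∑ x : Tor d M, kk ζ x := ⟨_, rfl⟩
  rw [← hB] at hone
  rw [← hKd] at hone hK0
  have hsum : (d : ℝ) * B ≤ d * K - c₁ / (20 * C₁) *
      ((2 * Real.pi / M) ^ 2 * (∑ i, ((q i).valMinAbs : ℝ) ^ 2) / w ^ 2) * K := by
    have h1 := Finset.sum_le_sum fun i (_ : i ∈ (Finset.univ : Finset (Fin d))) => hone i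
    rw [Finset.sum_const, Finset.card_univ, Fintype.card_fin, nsmul_eq_mul,
      Finset.sum_sub_distrib, Finset.sum_const, Finset.card_univ, Fintype.card_fin,
      nsmul_eq_mul, ← Finset.sum_mul, ← Finset.mul_sum, ← Finset.sum_div, ← Finset.mul_sum] at h1
    exact h1
  show |∑ x, kk ζ x * (ec q x).re| ≤
      (1 - c * (2 * Real.pi / M) ^ 2 * (∑ i, ((q i).valMinAbs : ℝ) ^ 2) / w ^ 2) *
        ∑ x : Tor d M, kk ζ x
  rw [← hB, ← hKd]
  obtain ⟨S, hS⟩ : ∃ S, S = (2 * Real.pi / M) ^ 2 * (∑ i, ((q i).valMinAbs : ℝ) ^ 2) / w ^ 2 :=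
    ⟨_, rfl⟩
  have hS0 : 0 ≤ S := by
    rw [hS]
    have : 0 ≤ ∑ i, ((q i).valMinAbs : ℝ) ^ 2 := Finset.sum_nonneg fun i _ => sq_nonneg _
    positivity
  rw [← hS] at hsum
  have e1 : c * (2 * Real.pi / M) ^ 2 * (∑ i, ((q i).valMinAbs : ℝ) ^ 2) / w ^ 2 = c * S := by
    rw [hS]
    ring
  rw [e1]
  have e2 : c * S * K ≤ c₁ / (20 * C₁ * d) * S * K :=
    mul_le_mul_of_nonneg_right (mul_le_mul_of_nonneg_right hc4 hS0) hK0
  have e3 : c₁ / (20 * C₁) * S * K = d * (c₁ / (20 * C₁ * d) * S * K) := by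
    field_simp
  rw [e3, ← mul_sub] at hsum
  have e4 := le_of_mul_le_mul_left hsum hd0
  linarith

end Pool.Agent.LE.QD.H51
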